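import Pool.Agent.Helper78_MT.StepG

/-! The elements `z ↦ ψ(x,z) y + ψ(y,z) x` of the symplectic Lie algebra. -/

set_option autoImplicit false
set_option linter.unusedSectionVars false

namespace Pool.Agent.FPD.H53

open Module LinearMap Pool.Agent.Helper78_MT

variable {W : Type*} [AddCommGroup W] [Module ℂ W] [FiniteDimensional ℂ W]
variable {ψ : W →ₗ[ℂ] W →ₗ[ℂ] ℂ} {g : Submodule ℂ (End ℂ W)}

/-- `z ↦ ψ(x,z) y + ψ(y,z) x`, linear in `y` -/
noncomputable def S (ψ : W →ₗ[ℂ] W →ₗ[ℂ] ℂ) (x : W) : W →ₗ[ℂ] End ℂ W where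
  toFun y := r1 ψ x y + r1 ψ y x
  map_add' a b := by
    ext z
    simp only [LinearMap.add_apply, r1_apply, map_add, smul_add, add_smul]
    abel
  map_smul' c a := by
    ext z
    simp only [LinearMap.add_apply, r1_apply, map_smul, LinearMap.smul_apply, smul_eq_mul,
      RingHom.id_apply, smul_add, smul_smul]
    rw [mul_comm (ψ x z) c]

theorem S_apply (ψ : W →ₗ[ℂ] W →ₗ[ℂ] ℂ) (x y z : W) : S ψ x y z = ψ x z • y + ψ y z • x := rfl

theorem S_skew (skew : ∀ u v, ψ u v = -ψ v u) (x y u v : W) :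
    ψ (S ψ x y u) v = -ψ u (S ψ x y v) := by
  simp only [S_apply, map_add, map_smul, LinearMap.add_apply, LinearMap.smul_apply, smul_eq_mul]
  rw [skew u y, skew u x]
  ring

theorem alt0 (skew : ∀ u v, ψ u v = -ψ v u) (u : W) : ψ u u = 0 := by
  have h := skew u u
  have h2 : (2 : ℂ) * ψ u u = 0 := by linear_combination h
  exact (mul_eq_zero.mp h2).resolve_left two_ne_zero

theorem S_sq (skew : ∀ u v, ψ u v = -ψ v u) {x y : W} (h : ψ x y = 0) :
    S ψ x y * S ψ x y = 0 := by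
  have h' : ψ y x = 0 := by rw [skew, h, neg_zero]
  ext z
  simp only [Module.End.mul_apply, S_apply, map_add, map_smul, LinearMap.zero_apply, smul_eq_mul,
    h, h', alt0 skew, mul_zero, add_zero, zero_smul, smul_zero]

theorem S_rk (x y : W) : rk (S ψ x y) ≤ 2 := by
  have h : range (S ψ x y) ≤ Submodule.span ℂ ({x, y} : Set W) := by
    rintro _ ⟨z, rfl⟩
    rw [S_apply]
    refine Submodule.add_mem _ (Submodule.smul_mem _ _ (Submodule.subset_span ?_))
      (Submodule.smul_mem _ _ (Submodule.subset_span ?_))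
    · exact Set.mem_insert_of_mem _ rfl
    · exact Set.mem_insert _ _
  unfold rk
  refine (Submodule.finrank_mono h).trans ?_
  classical
  have h2 : (({x, y} : Finset W) : Set W) = ({x, y} : Set W) := by simp
  rw [← h2]
  exact (finrank_span_finset_le_card ({x, y} : Finset W)).trans Finset.card_le_two

theorem S_inj (nd : ∀ u, (∀ v, ψ u v = 0) → u = 0) {x y : W}
    (hx : x ≠ 0) (h : S ψ x y = 0) : y = 0 := by
  obtain ⟨z, hz⟩ : ∃ z, ψ x z ≠ 0 := by
    by_contra hcon
    push Not at hcon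
    exact hx (nd x hcon)
  have h1 : ∀ u, ψ x u • y + ψ y u • x = 0 := fun u => by
    rw [← S_apply, h, LinearMap.zero_apply]
  have h2 : y = (-(ψ x z)⁻¹ * ψ y z) • x := by
    have := h1 z
    have h3 : ψ x z • y = -(ψ y z • x) := eq_neg_of_add_eq_zero_left this
    calc y = (ψ x z)⁻¹ • (ψ x z • y) := by rw [smul_smul, inv_mul_cancel₀ hz, one_smul]
      _ = _ := by rw [h3, smul_neg, smul_smul, ← neg_smul, neg_mul]
  obtain ⟨c, hc⟩ : ∃ c : ℂ, y = c • x := ⟨_, h2⟩
  have h3 := h1 z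
  rw [hc, map_smul, LinearMap.smul_apply, smul_eq_mul, smul_smul, ← add_smul] at h3
  rcases smul_eq_zero.1 h3 with h4 | h4
  · have h5 : c * ψ x z = 0 := by
      have : (2 : ℂ) * (c * ψ x z) = 0 := by linear_combination h4
      exact (mul_eq_zero.1 this).resolve_left two_ne_zero
    rcases mul_eq_zero.1 h5 with h6 | h6
    · rw [hc, h6, zero_smul]
    · exact absurd h6 hz
  · exact absurd h4 hx

/-- an irreducible Lie algebra with an element of square zero and rank at most two is the whole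
symplectic Lie algebra -/
theorem all_of_small (c : Ctx ψ g) {N : End ℂ W} (hN : N ∈ g) (hN2 : N * N = 0) (h0 : N ≠ 0)
    (hr : rk N ≤ 2) {C : End ℂ W} (hC : ∀ u v, ψ (C u) v = -ψ u (C v)) : C ∈ g := by
  by_cases h1 : ∃ X ∈ g, X * X = 0 ∧ rk X = 1
  · obtain ⟨X, hX, _, hX1⟩ := h1
    exact c.rank_one hX hX1 hC
  · exfalso
    push Not at h1
    have hr2 : rk N = 2 := by
      have h2 : rk N ≠ 0 := fun h => h0 (rk_eq_zero h)
      have h3 := h1 N hN hN2
      omega
    refine c.no_two ⟨fun X hX hX2 hlt ho => ?_, Or.inr rfl⟩ hN hN2 hr2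
    have h3 : rk X = 1 := by
      obtain ⟨k, hk⟩ := ho
      omega
    exact h1 X hX hX2 h3

/-- a family `S x D` with few elements in `g` -/
theorem fam_count (nd : ∀ u, (∀ v, ψ u v = 0) → u = 0) {x : W}
    (hx : x ≠ 0) (D : Submodule ℂ W) (L : Submodule ℂ (End ℂ W)) (hL : ∀ y ∈ D, S ψ x y ∈ L)
    (K : Submodule ℂ W) (hK : ∀ y ∈ D, S ψ x y ∈ g → y ∈ K) :
    finrank ℂ D + finrank ℂ (g ⊓ L : Submodule ℂ (End ℂ W)) ≤ finrank ℂ L + finrank ℂ K := by
  have hinj : Function.Injective (S ψ x) := by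
    rw [injective_iff_map_eq_zero]
    exact fun y hy => S_inj nd hx hy
  obtain ⟨Q, hQ⟩ : ∃ Q, Q = D.map (S ψ x) := ⟨_, rfl⟩
  have h1 : finrank ℂ Q = finrank ℂ D := by
    rw [hQ]
    exact (LinearEquiv.finrank_eq (Submodule.equivMapOfInjective _ hinj D)).symm
  have h2 : Q ⊔ (g ⊓ L) ≤ L := by
    refine sup_le ?_ inf_le_right
    rw [hQ]
    rintro _ ⟨y, hy, rfl⟩
    exact hL y hy
  have h3 : Q ⊓ (g ⊓ L) ≤ K.map (S ψ x) := by
    rintro T ⟨hT, hT2⟩
    rw [hQ] at hT
    obtain ⟨y, hy, rfl⟩ := hT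
    exact ⟨y, hK y hy hT2.1, rfl⟩
  have h4 := Submodule.finrank_sup_add_finrank_inf_eq Q (g ⊓ L)
  have h5 := Submodule.finrank_mono h2
  have h6 := (Submodule.finrank_mono h3).trans (Submodule.finrank_map_le (S ψ x) K)
  omega

/-- the two eigenvectors -/
theorem pair_dim (nd : ∀ u, (∀ v, ψ u v = 0) → u = 0)
    {U U' : Submodule ℂ W} (hc : IsCompl U U') {x : W} (hx : x ∉ U) (hx' : x ∉ U')
    (K : Submodule ℂ W) (hK : ∀ y ∈ K, (∀ z ∈ U, S ψ x y z ∈ U) ∧ ∀ z ∈ U', S ψ x y z ∈ U') :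
    finrank ℂ K ≤ 1 := by
  have dec : ∀ y : W, ∃ a ∈ U, ∃ b ∈ U', a + b = y := by
    intro y
    have hy : y ∈ U ⊔ U' := by rw [hc.sup_eq_top]; trivial
    obtain ⟨a, ha, b, hb, hab⟩ := Submodule.mem_sup.1 hy
    exact ⟨a, ha, b, hb, hab⟩
  have dis : ∀ v, v ∈ U → v ∈ U' → v = 0 := fun v h1 h2 => by
    have : v ∈ U ⊓ U' := ⟨h1, h2⟩
    rwa [hc.inf_eq_bot, Submodule.mem_bot] at this
  have zero_of : ∀ v : W, (∀ z ∈ U, ψ v z = 0) → (∀ z ∈ U', ψ v z = 0) → v = 0 := by
    intro v h1 h2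
    apply nd
    intro z
    obtain ⟨a, ha, b, hb, rfl⟩ := dec z
    rw [map_add, h1 a ha, h2 b hb, add_zero]
  obtain ⟨x1, hx1, x2, hx2, hxx⟩ := dec x
  have hx10 : x1 ≠ 0 := by
    rintro rfl
    exact hx' (by rw [← hxx, zero_add]; exact hx2)
  have hx20 : x2 ≠ 0 := by
    rintro rfl
    exact hx (by rw [← hxx, add_zero]; exact hx1)
  -- the two equations
  have eqs : ∀ y ∈ K, ∀ y1 ∈ U, ∀ y2 ∈ U', y1 + y2 = y →
      (∀ z ∈ U, ψ x z • y2 + ψ y z • x2 = 0) ∧ ∀ z ∈ U', ψ x z • y1 + ψ y z • x1 = 0 := by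
    intro y hy y1 hy1 y2 hy2 hyy
    obtain ⟨h1, h2⟩ := hK y hy
    constructor
    · intro z hz
      have h3 := h1 z hz
      rw [S_apply] at h3
      have h4 : ψ x z • y + ψ y z • x =
          (ψ x z • y1 + ψ y z • x1) + (ψ x z • y2 + ψ y z • x2) := by
        rw [← hyy, ← hxx]
        module
      rw [h4] at h3
      have h5 : ψ x z • y1 + ψ y z • x1 ∈ U :=
        U.add_mem (U.smul_mem _ hy1) (U.smul_mem _ hx1)
      exact dis _ ((U.add_mem_iff_right h5).1 h3)
        (U'.add_mem (U'.smul_mem _ hy2) (U'.smul_mem _ hx2))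
    · intro z hz
      have h3 := h2 z hz
      rw [S_apply] at h3
      have h4 : ψ x z • y + ψ y z • x =
          (ψ x z • y2 + ψ y z • x2) + (ψ x z • y1 + ψ y z • x1) := by
        rw [← hyy, ← hxx]
        module
      rw [h4] at h3
      have h5 : ψ x z • y2 + ψ y z • x2 ∈ U' :=
        U'.add_mem (U'.smul_mem _ hy2) (U'.smul_mem _ hx2)
      exact dis _ (U.add_mem (U.smul_mem _ hy1) (U.smul_mem _ hx1))
        ((U'.add_mem_iff_right h5).1 h3)
  -- the parameters
  have par : ∀ y ∈ K, ∃ mu la : ℂ, y = mu • x1 + la • x2 := by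
    intro y hy
    obtain ⟨y1, hy1, y2, hy2, hyy⟩ := dec y
    obtain ⟨e1, e2⟩ := eqs y hy y1 hy1 y2 hy2 hyy
    have key : ∀ {a b : W} {Z : Submodule ℂ W}, b ≠ 0 → (∀ z ∈ Z, ψ x z • a + ψ y z • b = 0) →
        (∃ z ∈ Z, ψ x z ≠ 0) → ∃ la : ℂ, a = la • b ∧ ∀ z ∈ Z, ψ y z = -(la * ψ x z) := by
      rintro a b Z hb he ⟨z, hz, hz0⟩
      have h3 : ψ x z • a = -(ψ y z • b) := eq_neg_of_add_eq_zero_left (he z hz)
      have h4 : a = (-(ψ x z)⁻¹ * ψ y z) • b := by
        calc a = (ψ x z)⁻¹ • (ψ x z • a) := by rw [smul_smul, inv_mul_cancel₀ hz0, one_smul]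
          _ = _ := by rw [h3, smul_neg, smul_smul, ← neg_smul, neg_mul]
      obtain ⟨la, hla⟩ : ∃ la : ℂ, a = la • b := ⟨_, h4⟩
      refine ⟨la, hla, fun z' hz' => ?_⟩
      have h5 := he z' hz'
      rw [hla, smul_smul, ← add_smul] at h5
      have h6 := (smul_eq_zero.1 h5).resolve_right hb
      linear_combination h6
    have key0 : ∀ {a b : W} {Z : Submodule ℂ W}, b ≠ 0 → (∀ z ∈ Z, ψ x z • a + ψ y z • b = 0) →
        (∀ z ∈ Z, ψ x z = 0) → ∀ z ∈ Z, ψ y z = 0 := by
      intro a b Z hb he h0 z hz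
      have h5 := he z hz
      rw [h0 z hz, zero_smul, zero_add] at h5
      exact (smul_eq_zero.1 h5).resolve_right hb
    by_cases hA : ∃ z ∈ U, ψ x z ≠ 0
    · obtain ⟨la, hla, hla2⟩ := key hx20 e1 hA
      by_cases hB : ∃ z ∈ U', ψ x z ≠ 0
      · obtain ⟨mu, hmu, _⟩ := key hx10 e2 hB
        exact ⟨mu, la, by rw [← hyy, hmu, hla]⟩
      · push Not at hB
        have h0 := key0 hx10 e2 hB
        -- y + la x = 0
        have h1 : y + la • x = 0 := by
          apply zero_of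
          · intro z hz
            rw [map_add, map_smul, LinearMap.add_apply, LinearMap.smul_apply, smul_eq_mul,
              hla2 z hz]
            ring
          · intro z hz
            rw [map_add, map_smul, LinearMap.add_apply, LinearMap.smul_apply, h0 z hz, hB z hz,
              smul_zero, add_zero]
        refine ⟨-la, -la, ?_⟩
        rw [eq_neg_of_add_eq_zero_left h1, ← hxx]
        module
    · push Not at hA
      have h0 := key0 hx20 e1 hA
      have hB : ∃ z ∈ U', ψ x z ≠ 0 := by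
        by_contra hcon
        push Not at hcon
        have := zero_of x hA hcon
        exact hx (by rw [this]; exact U.zero_mem)
      obtain ⟨mu, hmu, hmu2⟩ := key hx10 e2 hB
      have h1 : y + mu • x = 0 := by
        apply zero_of
        · intro z hz
          rw [map_add, map_smul, LinearMap.add_apply, LinearMap.smul_apply, h0 z hz, hA z hz,
            smul_zero, add_zero]
        · intro z hz
          rw [map_add, map_smul, LinearMap.add_apply, LinearMap.smul_apply, smul_eq_mul,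
            hmu2 z hz]
          ring
      refine ⟨-mu, -mu, ?_⟩
      rw [eq_neg_of_add_eq_zero_left h1, ← hxx]
      module
  -- equal parameters force zero
  have eq0 : ∀ y ∈ K, ∀ mu : ℂ, y = mu • x → y = 0 := by
    intro y hy mu hmu
    obtain ⟨e1, e2⟩ := eqs y hy (mu • x1) (U.smul_mem _ hx1) (mu • x2) (U'.smul_mem _ hx2)
      (by rw [hmu, ← hxx, smul_add])
    by_contra hy0
    have hmu0 : mu ≠ 0 := by
      rintro rfl
      exact hy0 (by rw [hmu, zero_smul])
    have h2 : x = 0 := by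
      apply zero_of
      · intro z hz
        have h3 := e1 z hz
        rw [hmu, map_smul, LinearMap.smul_apply, smul_eq_mul, smul_smul, ← add_smul] at h3
        have h4 := (smul_eq_zero.1 h3).resolve_right hx20
        have h5 : (2 * mu) * ψ x z = 0 := by linear_combination h4
        exact (mul_eq_zero.1 h5).resolve_left (mul_ne_zero two_ne_zero hmu0)
      · intro z hz
        have h3 := e2 z hz
        rw [hmu, map_smul, LinearMap.smul_apply, smul_eq_mul, smul_smul, ← add_smul] at h3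
        have h4 := (smul_eq_zero.1 h3).resolve_right hx10
        have h5 : (2 * mu) * ψ x z = 0 := by linear_combination h4
        exact (mul_eq_zero.1 h5).resolve_left (mul_ne_zero two_ne_zero hmu0)
    exact hx (by rw [h2]; exact U.zero_mem)
  by_cases hK0 : K = ⊥
  · rw [hK0, finrank_bot]
    exact Nat.zero_le _
  · obtain ⟨y0, hy0, hy00⟩ := K.exists_mem_ne_zero_of_ne_bot hK0
    obtain ⟨m0, l0, h0⟩ := par y0 hy0
    have hne : m0 - l0 ≠ 0 := by
      intro h
      apply hy00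
      apply eq0 y0 hy0 m0
      rw [h0, ← sub_eq_zero.1 h, ← smul_add, hxx]
    apply finrank_le_one (⟨y0, hy0⟩ : K)
    rintro ⟨y, hy⟩
    obtain ⟨m1, l1, h1⟩ := par y hy
    refine ⟨(m1 - l1) / (m0 - l0), ?_⟩
    apply Subtype.ext
    change ((m1 - l1) / (m0 - l0)) • y0 = y
    obtain ⟨t, ht⟩ : ∃ t, t = (m1 - l1) / (m0 - l0) := ⟨_, rfl⟩
    rw [← ht]
    have ht2 : t * (m0 - l0) = m1 - l1 := by rw [ht, div_mul_cancel₀ _ hne]
    have h2 : y - t • y0 ∈ K := K.sub_mem hy (K.smul_mem _ hy0)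
    have h3 : y - t • y0 = (m1 - t * m0) • x := by
      have h4 : l1 - t * l0 = m1 - t * m0 := by linear_combination ht2
      rw [h1, h0, ← hxx, smul_add (m1 - t * m0)]
      nth_rewrite 2 [← h4]
      module
    exact (sub_eq_zero.1 (eq0 _ h2 _ h3)).symm

end Pool.Agent.FPD.H53
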